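import Pool.Agent.W811.Nd.Abs

/-!
ND-COUNT: counting the nodes of type `true` modulo 3.
-/

set_option autoImplicit false

open Set Pool.Agent.W811.Nd

namespace Pool.Agent.W462.Nd

/-- indicator of the type `true`, modulo 3 -/
def tau (C : Nod) : ZMod 3 := if C.2.2 = true then 1 else 0

theorem cnt_cast (K : Finset Nod) : ((cnt K : ℕ) : ZMod 3) = ∑ C ∈ K, tau C := by
  unfold cnt tau
  rw [Finset.card_filter]
  push_cast
  rfl

theorem mem_kids {P : ℕ → Finset Nod} {n : ℕ} {B C : Nod} :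
    C ∈ kids P n B ↔ C ∈ P (n + 1) ∧ seg C ⊆ seg B := by
  classical
  unfold kids
  simp only [Finset.mem_filter]

variable {S : Set ℝ} {P : ℕ → Finset Nod}

theorem cnt_kids (h : Sys S P) (n : ℕ) (B : Nod) (hB : B ∈ P n) :
    ∑ C ∈ kids P n B, tau C = tau B := by
  rw [← cnt_cast, h.cntII n B hB]
  unfold tau
  split_ifs
  · decide
  · decide

theorem anc (h : Sys S P) (n m : ℕ) (hnm : n ≤ m) : ∀ B ∈ P m, ∃ D ∈ P n, seg B ⊆ seg D := by
  induction m, hnm using Nat.le_induction with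
  | base => exact fun B hB => ⟨B, hB, subset_rfl⟩
  | succ m _ ih =>
    intro C hC
    obtain ⟨B, hB, hCB⟩ := h.par m C hC
    obtain ⟨D, hD, hBD⟩ := ih B hB
    exact ⟨D, hD, hCB.trans hBD⟩

theorem eq_of_meet (h : Sys S P) {n : ℕ} {B D : Nod} (hB : B ∈ P n) (hD : D ∈ P n) {x : ℝ}
    (hxB : x ∈ seg B) (hxD : x ∈ seg D) : B = D := by
  by_contra hne
  exact Set.disjoint_left.1 (h.disj n B hB D hD hne) hxB hxD

theorem nest (h : Sys S P) {n m : ℕ} (hnm : n ≤ m) {B D : Nod} (hB : B ∈ P m) (hD : D ∈ P n)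
    {x : ℝ} (hxB : x ∈ seg B) (hxD : x ∈ seg D) : seg B ⊆ seg D := by
  obtain ⟨D', hD', hBD⟩ := anc h n m hnm B hB
  rw [eq_of_meet h hD hD' hxD (hBD hxB)]
  exact hBD

open Classical in
theorem step (h : Sys S P) (A : Set ℝ) (m : ℕ)
    (hA : ∀ B ∈ P m, ∀ C ∈ P (m + 1), seg C ⊆ seg B → seg C ⊆ A → seg B ⊆ A) :
    ∑ C ∈ (P (m + 1)).filter (fun C => seg C ⊆ A), tau C =
      ∑ C ∈ (P m).filter (fun C => seg C ⊆ A), tau C := by
  have e : (P (m + 1)).filter (fun C => seg C ⊆ A) =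
      ((P m).filter (fun C => seg C ⊆ A)).biUnion (fun B => kids P m B) := by
    ext C
    rw [Finset.mem_filter, Finset.mem_biUnion]
    constructor
    · rintro ⟨hC, hCA⟩
      obtain ⟨B, hB, hCB⟩ := h.par m C hC
      exact ⟨B, Finset.mem_filter.2 ⟨hB, hA B hB C hC hCB hCA⟩, mem_kids.2 ⟨hC, hCB⟩⟩
    · rintro ⟨B, hB, hC⟩
      rw [Finset.mem_filter] at hB
      rw [mem_kids] at hC
      exact ⟨hC.1, hC.2.trans hB.2⟩
  rw [e, Finset.sum_biUnion]
  · refine Finset.sum_congr rfl fun B hB => ?_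
    exact cnt_kids h m B (Finset.mem_filter.1 hB).1
  · intro B hB B' hB' hne
    rw [Function.onFun, Finset.disjoint_left]
    intro C hC hC'
    rw [mem_kids] at hC hC'
    obtain ⟨x, _, hx⟩ := h.meet (m + 1) C hC.1
    exact hne (eq_of_meet h (Finset.mem_filter.1 hB).1 (Finset.mem_filter.1 hB').1
      (hC.2 hx) (hC'.2 hx))

open Classical in
theorem steps (h : Sys S P) (A : Set ℝ) (n m : ℕ) (hnm : n ≤ m)
    (hA : ∀ m, n ≤ m → ∀ B ∈ P m, ∀ C ∈ P (m + 1), seg C ⊆ seg B → seg C ⊆ A → seg B ⊆ A) :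
    ∑ C ∈ (P m).filter (fun C => seg C ⊆ A), tau C =
      ∑ C ∈ (P n).filter (fun C => seg C ⊆ A), tau C := by
  induction m, hnm using Nat.le_induction with
  | base => rfl
  | succ m hm ih => rw [step h A m (hA m hm), ih]

theorem total (h : Sys S P) (m : ℕ) : ∑ C ∈ P m, tau C = ∑ C ∈ P 0, tau C := by
  classical
  have h1 := steps h Set.univ 0 m (Nat.zero_le _) (fun _ _ _ _ _ _ _ _ => Set.subset_univ _)
  rw [Finset.filter_true_of_mem (fun _ _ => Set.subset_univ _),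
    Finset.filter_true_of_mem (fun _ _ => Set.subset_univ _)] at h1
  exact h1

open Classical in
theorem inside (h : Sys S P) {n : ℕ} {D : Nod} (hD : D ∈ P n) {m : ℕ} (hnm : n ≤ m) :
    ∑ C ∈ (P m).filter (fun C => seg C ⊆ seg D), tau C = tau D := by
  rw [steps h (seg D) n m hnm]
  · have e : (P n).filter (fun C => seg C ⊆ seg D) = {D} := by
      ext C
      rw [Finset.mem_filter, Finset.mem_singleton]
      constructor
      · rintro ⟨hC, hCD⟩
        obtain ⟨x, _, hx⟩ := h.meet n C hC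
        exact eq_of_meet h hC hD hx (hCD hx)
      · rintro rfl
        exact ⟨hD, subset_rfl⟩
    rw [e, Finset.sum_singleton]
  · intro m hm B hB C hC hCB hCD
    obtain ⟨x, _, hx⟩ := h.meet (m + 1) C hC
    exact nest h hm hB hD (hCB hx) (hCD hx)

theorem count_ : TCount := by
  classical
  intro S S' P P' f hP hP' hf hfS hN
  obtain ⟨N, hN⟩ := hN
  choose! k D hD hfD hty using hN
  rw [← ZMod.natCast_eq_natCast_iff' , cnt_cast, cnt_cast, ← total hP N]
  set K := (P N).sup k with hK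
  have hkK : ∀ B ∈ P N, k B ≤ K := fun B hB => Finset.le_sup hB
  rw [← total hP' K]
  have e : P' K = (P N).biUnion (fun B => (P' K).filter (fun C => seg C ⊆ seg (D B))) := by
    ext C
    rw [Finset.mem_biUnion]
    constructor
    · intro hC
      obtain ⟨x', hx', hxC⟩ := hP'.meet K C hC
      have hx2 := hx'
      rw [← hfS] at hx2
      obtain ⟨x, hx, rfl⟩ := hx2
      obtain ⟨B, hB, hxB⟩ := hP.cover N x hx
      have h1 : f x ∈ S' ∩ seg (D B) := by
        rw [← hfD B hB]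
        exact ⟨x, ⟨hx, hxB⟩, rfl⟩
      exact ⟨B, hB, Finset.mem_filter.2 ⟨hC, nest hP' (hkK B hB) hC (hD B hB) hxC h1.2⟩⟩
    · rintro ⟨B, _, hC⟩
      exact (Finset.mem_filter.1 hC).1
  rw [e, Finset.sum_biUnion]
  · refine Finset.sum_congr rfl fun B hB => ?_
    rw [inside hP' (hD B hB) (hkK B hB)]
    unfold tau
    rw [hty B hB]
  · intro B hB B' hB' hne
    rw [Function.onFun, Finset.disjoint_left]
    intro C hC hC'
    rw [Finset.mem_filter] at hC hC'
    obtain ⟨x', hx', hxC⟩ := hP'.meet K C hC.1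
    have h1 : x' ∈ f '' (S ∩ seg B) := by
      rw [hfD B hB]; exact ⟨hx', hC.2 hxC⟩
    have h2 : x' ∈ f '' (S ∩ seg B') := by
      rw [hfD B' hB']; exact ⟨hx', hC'.2 hxC⟩
    obtain ⟨x, hx, hxe⟩ := h1
    obtain ⟨y, hy, hye⟩ := h2
    have hxy : x = y := hf hx.1 hy.1 (hxe.trans hye.symm)
    subst hxy
    exact hne (eq_of_meet hP hB hB' hx.2 hy.2)

end Pool.Agent.W462.Nd
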