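import Pool.Agent.W811.Nd.Stm

/-!
ND-KC: families of children.
-/

set_option autoImplicit false

open Set Pool.Agent.W811.Stu Pool.Agent.W811.Nd

namespace Pool.Agent.W462.Nd

theorem kc (h : TDis) : TKC := by
  classical
  intro lam d m B N q C hbig hd hB hq hC hcov hc1 hc2
  obtain ⟨hdis, -⟩ := h lam d m B hbig hd hB
  have hlen : 0 < len B := by unfold len; linarith [hB.lt]
  have hsep : ∀ i j, i ≠ j → ∀ x ∈ seg (C i).2, ∀ y ∈ seg (C j).2, len B / 25 ≤ |x - y| := by
    intro i j hij x hx y hy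
    have h1 := (hdis x ((hC i).2.2.1 hx) y ((hC j).2.2.1 hy)).2
    have h2 := (hC i).2.2.2 x hx
    have h3 := (hC j).2.2.2 y hy
    have h4 := hq i j hij
    set fx := (orb d (lin lam x) m).y
    set fy := (orb d (lin lam y) m).y
    have h5 : 1 / 10 ≤ |fx - fy| := by
      have e : q i - q j = (fx - fy) - (fx - q i) + (fy - q j) := by ring
      have h6 : |q i - q j| ≤ |fx - fy| + |fx - q i| + |fy - q j| := by
        rw [e]
        exact (abs_add_le _ _).trans (add_le_add (abs_sub _ _) le_rfl)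
      linarith
    have h7 : 1 / 10 / 2 * len B ≤ |fx - fy| / 2 * len B := by gcongr
    have h8 := h7.trans h1
    have h9 := abs_nonneg (x - y)
    nlinarith
  have hinj : Function.Injective C := by
    intro i j hij
    by_contra hne
    have hx : (C i).2.1 ∈ seg (C i).2 := ⟨le_rfl, (hC i).2.1.lt.le⟩
    have h1 := hsep i j hne _ hx _ (by rw [← hij]; exact hx)
    rw [sub_self, abs_zero] at h1
    linarith
  refine ⟨Finset.univ.image C, ?_, ?_, ?_, ?_, ?_, ?_, ?_⟩
  · intro D hD
    rw [Finset.mem_image] at hD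
    obtain ⟨i, -, rfl⟩ := hD
    exact ⟨(hC i).1, (hC i).2.1⟩
  · intro D hD
    rw [Finset.mem_image] at hD
    obtain ⟨i, -, rfl⟩ := hD
    exact (hC i).2.2.1
  · rw [Finset.filter_image, Finset.card_image_of_injective _ hinj]
    exact hc1
  · rw [Finset.filter_image, Finset.card_image_of_injective _ hinj]
    exact hc2
  · intro D hD D' hD' hne x hx y hy
    rw [Finset.mem_image] at hD hD'
    obtain ⟨i, -, rfl⟩ := hD
    obtain ⟨j, -, rfl⟩ := hD'
    exact hsep i j (fun e => hne (by rw [e])) x hx y hy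
  · intro D hD
    rw [Finset.mem_image] at hD
    obtain ⟨i, -, rfl⟩ := hD
    have hlt := (hC i).2.1.lt
    have hx : (C i).2.1 ∈ seg (C i).2 := ⟨le_rfl, hlt.le⟩
    have hx' : (C i).2.2.1 ∈ seg (C i).2 := ⟨hlt.le, le_rfl⟩
    have h1 := (hdis _ ((hC i).2.2.1 hx) _ ((hC i).2.2.1 hx')).1
    have h2 := (hC i).2.2.2 _ hx
    have h3 := (hC i).2.2.2 _ hx'
    set fx := (orb d (lin lam (C i).2.1) m).y
    set fy := (orb d (lin lam (C i).2.2.1) m).y
    have h5 : |fx - fy| ≤ 1 / 1000 := by
      have e : fx - fy = (fx - q i) - (fy - q i) := by ring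
      rw [e]
      refine (abs_sub _ _).trans ?_
      linarith
    have h7 : |fx - fy| / 2 * len B ≤ 1 / 1000 / 2 * len B := by gcongr
    have h8 : len (C i).2 = |(C i).2.1 - (C i).2.2.1| := by
      unfold len
      rw [abs_sub_comm, abs_of_pos (by linarith)]
    rw [h8]
    refine h1.trans ?_
    nlinarith
  · intro x hx hxB
    obtain ⟨i, hi⟩ := hcov x hx hxB
    exact ⟨C i, Finset.mem_image_of_mem _ (Finset.mem_univ i), hi⟩

end Pool.Agent.W462.Nd
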